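import Pool.Agent.W751.CD.Stm

/-! # CD-KAP: scaling the roots -/

set_option autoImplicit false

open Polynomial Filter Topology MeasureTheory

namespace W125.CD

open Pool.Agent.W751.CD

/-- invariance for arbitrary sets (one inequality) -/
lemma inv_le (hNU : S_NU) (b : ℂ) (hb : b ≠ 0) (E : Set ℂ) :
    nu ((fun a : ℂ => a * b) ⁻¹' E) ≤ nu E := by
  calc nu ((fun a : ℂ => a * b) ⁻¹' E)
      ≤ nu ((fun a : ℂ => a * b) ⁻¹' (toMeasurable nu E)) :=
        measure_mono (Set.preimage_mono (subset_toMeasurable nu E))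
    _ = nu (toMeasurable nu E) := hNU.2.1 b hb _ (measurableSet_toMeasurable nu E)
    _ = nu E := measure_toMeasurable E

lemma pow_le' (hPOW : S_POW) (n : ℕ) (hn : 1 ≤ n) (E : Set ℂ) (c : ℝ)
    (h : nu E ≤ ENNReal.ofReal c) :
    nu ((fun a : ℂ => a ^ n) ⁻¹' E) ≤ ENNReal.ofReal (c / n) := by
  have hn0 : (0 : ℝ) < n := by exact_mod_cast hn
  have h1 : (n : ENNReal) * nu ((fun a : ℂ => a ^ n) ⁻¹' (toMeasurable nu E)) = nu E := by
    rw [hPOW n hn _ (measurableSet_toMeasurable nu E), measure_toMeasurable]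
  have h2 : nu ((fun a : ℂ => a ^ n) ⁻¹' E) ≤
      nu ((fun a : ℂ => a ^ n) ⁻¹' (toMeasurable nu E)) :=
    measure_mono (Set.preimage_mono (subset_toMeasurable nu E))
  have h3 : (n : ENNReal) ≠ 0 := by
    exact_mod_cast (by omega : n ≠ 0)
  rw [ENNReal.ofReal_div_of_pos hn0, ENNReal.ofReal_natCast,
    ENNReal.le_div_iff_mul_le (Or.inl h3) (Or.inl (ENNReal.natCast_ne_top n)), mul_comm]
  calc (n : ENNReal) * nu ((fun a : ℂ => a ^ n) ⁻¹' E)
      ≤ (n : ENNReal) * nu ((fun a : ℂ => a ^ n) ⁻¹' (toMeasurable nu E)) := by gcongr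
    _ = nu E := h1
    _ ≤ _ := h

theorem kap_holds : Pool.Agent.W751.CD.S_KAP := by
  intro hNU hPOW hCONJ hFIB N hN z L hz hL
  have hne : (Finset.univ : Finset (Fin N)).Nonempty := ⟨⟨0, by omega⟩, Finset.mem_univ _⟩
  obtain ⟨i₀, -, hi₀⟩ := Finset.exists_max_image Finset.univ (fun i => ‖z i‖) hne
  set M : ℝ := ‖z i₀‖ with hM
  have hMpos : 0 < M := norm_pos_iff.mpr (hz i₀)
  have hMC : (M : ℂ) ≠ 0 := by exact_mod_cast hMpos.ne'
  have hL1 : 1 ≤ L := by
    have := hL i₀ i₀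
    rw [← hM] at this
    by_contra hcon
    push Not at hcon
    nlinarith
  have hLpos : 0 < L := by linarith
  set z' : Fin N → ℂ := fun i => z i / M with hz'
  have hzz : (fun i => (M : ℂ) * z' i) = z := by
    funext i
    simp only [hz']
    field_simp
  have hb : ∀ i, 1 / L ≤ ‖z' i‖ ∧ ‖z' i‖ ≤ 1 := by
    intro i
    have hn : ‖z' i‖ = ‖z i‖ / M := by
      simp only [hz', norm_div, Complex.norm_real, Real.norm_of_nonneg hMpos.le]
    rw [hn]
    constructor
    · rw [div_le_div_iff₀ hLpos hMpos, one_mul, mul_comm]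
      exact hL i₀ i
    · rw [div_le_one hMpos]
      exact hi₀ i (Finset.mem_univ i)
  have hF := hFIB N hN z' (1 / L) (by positivity) hb
  rw [show (N : ℝ) / (1 / L) = N * L by field_simp] at hF
  have hA : nu {a : ℂ | ¬ Hyp (C a * P z)} ≤
      ENNReal.ofReal (360 * Real.sqrt N * Real.log (N * L)) := by
    have hset : {a : ℂ | ¬ Hyp (C a * P z)} =
        (fun a : ℂ => a * (M : ℂ) ^ (N - 1)) ⁻¹' {a : ℂ | ¬ Hyp (C a * P z')} := by
      ext a
      have := hCONJ N (by omega) z' a M hMC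
      rw [hzz] at this
      exact not_congr this
    rw [hset]
    exact (inv_le hNU _ (pow_ne_zero _ hMC) _).trans hF
  refine ⟨?_, hA⟩
  have hsub : {κ : ℂ | ¬ Hyp (P fun i => κ * z i)} ⊆
      {0} ∪ (fun κ : ℂ => κ ^ (N - 1)) ⁻¹' {a : ℂ | ¬ Hyp (C a * P z)} := by
    intro κ hκ
    by_cases h0 : κ = 0
    · left
      exact h0
    · right
      have := hCONJ N (by omega) z 1 κ h0
      rw [map_one, one_mul, one_mul] at this
      exact fun h => hκ (this.mpr h)
  have hN1 : (1 : ℝ) ≤ ((N - 1 : ℕ) : ℝ) := by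
    exact_mod_cast (by omega : 1 ≤ N - 1)
  have hNR : (2 : ℝ) ≤ N := by exact_mod_cast hN
  have hlog : 0 ≤ Real.log (N * L) := by
    apply Real.log_nonneg
    nlinarith
  have hsq : 0 < Real.sqrt N := Real.sqrt_pos.mpr (by linarith)
  have hss : Real.sqrt N * Real.sqrt N = N := Real.mul_self_sqrt (by linarith)
  have hcast : ((N - 1 : ℕ) : ℝ) = N - 1 := by
    rw [Nat.cast_sub (by omega), Nat.cast_one]
  calc nu {κ : ℂ | ¬ Hyp (P fun i => κ * z i)}
      ≤ nu ({0} ∪ (fun κ : ℂ => κ ^ (N - 1)) ⁻¹' {a : ℂ | ¬ Hyp (C a * P z)}) :=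
        measure_mono hsub
    _ ≤ nu {0} + nu ((fun κ : ℂ => κ ^ (N - 1)) ⁻¹' {a : ℂ | ¬ Hyp (C a * P z)}) :=
        measure_union_le _ _
    _ = nu ((fun κ : ℂ => κ ^ (N - 1)) ⁻¹' {a : ℂ | ¬ Hyp (C a * P z)}) := by
        rw [hNU.2.2, zero_add]
    _ ≤ ENNReal.ofReal (360 * Real.sqrt N * Real.log (N * L) / ((N - 1 : ℕ) : ℝ)) :=
        pow_le' hPOW (N - 1) (by omega) _ _ hA
    _ ≤ ENNReal.ofReal (720 * Real.log (N * L) / Real.sqrt N) := by
        apply ENNReal.ofReal_le_ofReal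
        rw [hcast, div_le_div_iff₀ (by linarith) hsq]
        have e1 : 360 * Real.sqrt N * Real.log (N * L) * Real.sqrt N =
            360 * Real.log (N * L) * N := by
          calc 360 * Real.sqrt N * Real.log (N * L) * Real.sqrt N =
              360 * Real.log (N * L) * (Real.sqrt N * Real.sqrt N) := by ring
            _ = _ := by rw [hss]
        rw [e1]
        nlinarith

end W125.CD
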